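import Pool.Agent.Helper205_Exc.FormsFin3

/-!
# Integral points on C-pairs on the line with large multiplicities

Let `a_1, …, a_q` be `q ≥ 3` distinct points of the projective line over `ℚ` and `S` a finite set of
primes. We count the `S`-integral points of the C-pairs `(ℙ¹, ∑ (1 - 1 / m_i) a_i)` whose multiplicities
`m_i ∈ {1, 2, …} ∪ {∞}` are large. Campana's conjecture says that they are finite in number if
`σ = ∑ 1 / m_i < q - 2`.

The values at an integral point of the linear forms which vanish at `a_j` and `a_k` are, outside `S`,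
integers all of whose prime factors have an exponent at least `m_j` resp. `m_k`, and they determine the
point. So there are at most `C B ^ (1 / m_j + 1 / m_k + ε)` integral points of height at most `B`. We
show that the exponent `1 / m_j + 1 / m_k` can be halved, up to `η σ`, if `σ` is small.

The values of the `q` linear forms at an integral point of height `B` have radicals at most
`C B ^ (1 / m_i)`. If one of them is divisible by a large power `r ^ E` of a small integer `r`, two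
others are proportional modulo `r ^ E`, and a count of pairs of integers with small radicals which are
proportional modulo `r ^ E` gives the bound. Otherwise they are products of powers of boundedly many
small integers, and the determinant method applies.
-/

set_option autoImplicit false

namespace Pool.Agent.Results.MP_464c42_nt.LargeMultiplicities

open Finset

/-- Normalised coprime integer coordinates: each point `[x₁ : x₂]` of the projective line over `ℚ`
has exactly one such pair. -/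
def Nrm (x : ℤ × ℤ) : Prop := IsCoprime x.1 x.2 ∧ (0 < x.2 ∨ x.2 = 0 ∧ 0 < x.1)

/-- the value at `x` of the linear form which vanishes at `a`; if the coordinates of `a` and `x` are
coprime then its `p`-adic valuation is the intersection number of `x` and `a` at `p` -/
def form (a x : ℤ × ℤ) : ℤ := x.1 * a.2 - x.2 * a.1

/-- the real number `1 / m`, with `1 / ∞ = 0` -/
noncomputable def recip (m : ℕ∞) : ℝ := ((m.toNat : ℕ) : ℝ)⁻¹

/-- the points `x`, different from all the `a_i`, which are `S`-integral for the C-pair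
`(ℙ¹, ∑ (1 - 1 / m_i) a_i)`: for all primes `p ∉ S` and all `i` the intersection number of `x` and
`a_i` at `p` is `0` or at least `m_i` (and `0` if `m_i = ∞`) -/
def IsIntegral {q : ℕ} (S : Finset ℕ) (a : Fin q → ℤ × ℤ) (m : Fin q → ℕ∞) (x : ℤ × ℤ) : Prop :=
  ∀ i, form (a i) x ≠ 0 ∧ ∀ p : ℕ, p.Prime → p ∉ S →
    padicValInt p (form (a i) x) = 0 ∨ m i ≤ (padicValInt p (form (a i) x) : ℕ∞)

/-- the `S`-integral points of the C-pair of height at most `B` -/
def Points {q : ℕ} (S : Finset ℕ) (a : Fin q → ℤ × ℤ) (m : Fin q → ℕ∞) (B : ℝ) : Set (ℤ × ℤ) :=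
  {x | Nrm x ∧ IsIntegral S a m x ∧ max |(x.1 : ℝ)| |(x.2 : ℝ)| ≤ B}

section aux

open Pool.Agent.TH867.QF

variable {q : ℕ}

/-- the linear forms -/
def FL (α : Fin q → ℤ × ℤ)
    (hα : ∀ i j, i ≠ j → (α i).1 * (α j).2 ≠ (α j).1 * (α i).2) : Fm q where
  u i := (α i).2
  w i := - (α i).1
  res i j hij h0 := hα i j hij (by linarith)

theorem ev_eq (α : Fin q → ℤ × ℤ)
    (hα : ∀ i j, i ≠ j → (α i).1 * (α j).2 ≠ (α j).1 * (α i).2) (x : ℤ × ℤ) (i : Fin q) :
    ev (FL α hα) x i = form (α i) x := by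
  unfold ev FL form
  ring

theorem ht_eq (x : ℤ × ℤ) : (ht x : ℝ) = max |(x.1 : ℝ)| |(x.2 : ℝ)| := by
  unfold ht
  rw [Nat.cast_max, Nat.cast_natAbs, Nat.cast_natAbs, Int.cast_abs, Int.cast_abs]

theorem fin_ht (N : ℕ) : {x : ℤ × ℤ | ht x ≤ N}.Finite := by
  apply Set.Finite.subset (Finset.finite_toSet (Finset.Icc (-(N : ℤ)) N ×ˢ Finset.Icc (-(N : ℤ)) N))
  intro x hx
  have hx' : ht x ≤ N := hx
  have h1 : x.1.natAbs ≤ N := (le_max_left _ _).trans hx'
  have h2 : x.2.natAbs ≤ N := (le_max_right _ _).trans hx'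
  rw [Finset.mem_coe, Finset.mem_product, Finset.mem_Icc, Finset.mem_Icc]
  omega

theorem recip_nonneg (m : ℕ∞) : 0 ≤ recip m := inv_nonneg.mpr (Nat.cast_nonneg _)

theorem pt_of {α : Fin q → ℤ × ℤ}
    {hα : ∀ i j, i ≠ j → (α i).1 * (α j).2 ≠ (α j).1 * (α i).2} {S : Finset ℕ} {m : Fin q → ℕ∞}
    {x : ℤ × ℤ} (hx : Nrm x) (h : IsIntegral S α m x) : Pt (FL α hα) x where
  cop := hx.1
  ne i := by rw [ev_eq]; exact (h i).1

/-- the radicals of the values -/
theorem rad_le {α : Fin q → ℤ × ℤ}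
    {hα : ∀ i j, i ≠ j → (α i).1 * (α j).2 ≠ (α j).1 * (α i).2} {S : Finset ℕ} {m : Fin q → ℕ∞}
    (hm : ∀ i, 1 ≤ m i) {x : ℤ × ℤ} (hx : Nrm x) (h : IsIntegral S α m x) {H : ℝ}
    (hH : (U (FL α hα) : ℝ) * ht x ≤ H) (i : Fin q) :
    ((∏ p ∈ (va (FL α hα) x i).primeFactors \ S, p : ℕ) : ℝ) ≤ H ^ recip (m i) := by
  have hP : Pt (FL α hα) x := pt_of hx h
  have hva0 := va_pos hP i
  have hU : 1 ≤ U (FL α hα) := U_pos _
  have hht := ht_pos hP
  have hH1 : 1 ≤ H := by
    refine le_trans ?_ hH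
    exact_mod_cast Nat.mul_pos hU hht
  have hvaf : va (FL α hα) x i = (form (α i) x).natAbs := by
    unfold va
    rw [ev_eq]
  obtain ⟨h1, h2⟩ := h i
  rcases eq_or_ne (m i) ⊤ with htop | htop
  · have h3 : (va (FL α hα) x i).primeFactors \ S = ∅ := by
      rw [Finset.eq_empty_iff_forall_notMem]
      intro p hp
      obtain ⟨hp1, hp2⟩ := mem_sdiff.mp hp
      have hpp := Nat.prime_of_mem_primeFactors hp1
      have hdvd := Nat.dvd_of_mem_primeFactors hp1
      rcases h2 p hpp hp2 with h4 | h4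
      · rw [hvaf] at hdvd
        have := Fact.mk hpp
        have h5 : padicValInt p (form (α i) x) = padicValNat p (form (α i) x).natAbs := rfl
        rw [h5] at h4
        have h6 : (form (α i) x).natAbs ≠ 0 := Int.natAbs_ne_zero.2 h1
        have h7 := one_le_padicValNat_of_dvd h6 hdvd
        omega
      · rw [htop, top_le_iff] at h4
        exact ENat.natCast_ne_top _ h4
    rw [h3, prod_empty, Nat.cast_one]
    exact Real.one_le_rpow hH1 (recip_nonneg _)
  · obtain ⟨e, he⟩ := ENat.ne_top_iff_exists.mp htop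
    have he1 : 1 ≤ e := by
      have := hm i
      rw [← he] at this
      exact_mod_cast this
    have he0 : (0 : ℝ) < e := by exact_mod_cast he1
    obtain ⟨r, hr⟩ : ∃ r : ℕ, r = ∏ p ∈ (va (FL α hα) x i).primeFactors \ S, p := ⟨_, rfl⟩
    have hdvd : r ^ e ∣ va (FL α hα) x i := by
      have h4 : ∏ p ∈ (va (FL α hα) x i).primeFactors, p ^ (va (FL α hα) x i).factorization p =
          va (FL α hα) x i := Nat.prod_factorization_pow_eq_self hva0.ne'
      rw [hr, ← prod_pow]
      calc ∏ p ∈ (va (FL α hα) x i).primeFactors \ S, p ^ e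
          ∣ ∏ p ∈ (va (FL α hα) x i).primeFactors \ S, p ^ (va (FL α hα) x i).factorization p := by
            apply Finset.prod_dvd_prod_of_dvd
            intro p hp
            obtain ⟨hp1, hp2⟩ := mem_sdiff.mp hp
            have hpp := Nat.prime_of_mem_primeFactors hp1
            have hd := Nat.dvd_of_mem_primeFactors hp1
            apply pow_dvd_pow
            have h5 : padicValInt p (form (α i) x) = (va (FL α hα) x i).factorization p := by
              rw [hvaf, Nat.factorization_def _ hpp]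
              rfl
            rcases h2 p hpp hp2 with h6 | h6
            · rw [h5] at h6
              have h7 := hpp.factorization_pos_of_dvd hva0.ne' hd
              omega
            · rw [h5, ← he] at h6
              exact_mod_cast h6
        _ ∣ ∏ p ∈ (va (FL α hα) x i).primeFactors, p ^ (va (FL α hα) x i).factorization p :=
            Finset.prod_dvd_prod_of_subset _ _ _ sdiff_subset
        _ = va (FL α hα) x i := h4
    have h3 : ((r ^ e : ℕ) : ℝ) ≤ H := by
      refine le_trans ?_ hH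
      have h4 : r ^ e ≤ U (FL α hα) * ht x :=
        (Nat.le_of_dvd hva0 hdvd).trans (va_le (FL α hα) x i)
      exact_mod_cast h4
    have h5 : recip (m i) = (e : ℝ)⁻¹ := by rw [← he]; simp [recip]
    rw [← hr, h5]
    have hr0 : (0 : ℝ) ≤ r := Nat.cast_nonneg _
    push_cast at h3
    calc (r : ℝ) = ((r : ℝ) ^ e) ^ (e : ℝ)⁻¹ := by
          rw [← Real.rpow_natCast, ← Real.rpow_mul hr0, mul_inv_cancel₀ he0.ne', Real.rpow_one]
      _ ≤ H ^ (e : ℝ)⁻¹ := Real.rpow_le_rpow (by positivity) h3 (by positivity)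

/-- from dyadic intervals of heights to all heights -/
theorem dyadic {θ K : ℝ} (hθ : 0 < θ) (hK : 0 < K) (j0 : ℕ) : ∃ C : ℝ, 0 < C ∧ ∀ B : ℝ, 1 ≤ B →
    ∀ E : Finset (ℤ × ℤ), (∀ x ∈ E, 0 < ht x ∧ (ht x : ℝ) ≤ B) →
    (∀ j, j0 ≤ j → ((E.filter fun x => Nat.log 2 (ht x) = j).card : ℝ) ≤ K * ((2 : ℝ) ^ θ) ^ j) →
    (E.card : ℝ) ≤ C * B ^ θ := by
  classical
  obtain ⟨r, hr⟩ : ∃ r : ℝ, r = (2 : ℝ) ^ θ := ⟨_, rfl⟩
  have hr1 : 1 < r := by rw [hr]; exact Real.one_lt_rpow (by norm_num) hθ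
  have hr0 : 0 < r := by linarith
  have hr10 : 0 < r - 1 := by linarith
  obtain ⟨C0, hC0⟩ : ∃ C0 : ℕ, C0 = {x : ℤ × ℤ | ht x ≤ 2 ^ (j0 + 1)}.ncard := ⟨_, rfl⟩
  obtain ⟨C1, hC1⟩ : ∃ C1 : ℝ, C1 = C0 + K := ⟨_, rfl⟩
  have hC10 : 0 < C1 := by rw [hC1]; positivity
  refine ⟨C1 * (r / (r - 1)), by positivity, ?_⟩
  intro B hB E hE hEj
  rw [← hr] at hEj
  have hB0 : 0 < B := by linarith
  obtain ⟨J, hJ⟩ : ∃ J : ℕ, J = Nat.log 2 ⌊B⌋₊ := ⟨_, rfl⟩
  have hfl : 1 ≤ ⌊B⌋₊ := Nat.le_floor (by simpa using hB)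
  have hJB : (2 : ℝ) ^ J ≤ B := by
    have h1 : 2 ^ J ≤ ⌊B⌋₊ := by rw [hJ]; exact Nat.pow_log_le_self 2 (by omega)
    calc (2 : ℝ) ^ J = ((2 ^ J : ℕ) : ℝ) := by push_cast; rfl
      _ ≤ (⌊B⌋₊ : ℝ) := by exact_mod_cast h1
      _ ≤ B := Nat.floor_le hB0.le
  have hfib : ∀ j : ℕ, ((E.filter fun x => Nat.log 2 (ht x) = j).card : ℝ) ≤ C1 * r ^ j := by
    intro j
    have hrj : 1 ≤ r ^ j := one_le_pow₀ hr1.le
    rcases lt_or_ge j j0 with hj | hj
    · have h1 : (E.filter fun x => Nat.log 2 (ht x) = j).card ≤ C0 := by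
        rw [hC0, ← Set.ncard_coe_finset]
        apply Set.ncard_le_ncard _ (fin_ht _)
        intro x hx
        obtain ⟨h2, h3⟩ := Finset.mem_filter.mp hx
        have h4 : ht x < 2 ^ (j + 1) := by
          rw [← h3]
          exact Nat.lt_pow_succ_log_self (by norm_num) _
        exact h4.le.trans (Nat.pow_le_pow_right (by norm_num) (by omega))
      have h2 : ((E.filter fun x => Nat.log 2 (ht x) = j).card : ℝ) ≤ C0 := by exact_mod_cast h1
      have h3 : (C0 : ℝ) ≤ C1 := by rw [hC1]; linarith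
      nlinarith
    · refine (hEj j hj).trans (mul_le_mul_of_nonneg_right ?_ (by positivity))
      rw [hC1]
      linarith [(Nat.cast_nonneg C0 : (0 : ℝ) ≤ C0)]
  have hcard : (E.card : ℝ) ≤ ∑ j ∈ Finset.range (J + 1), C1 * r ^ j := by
    rw [Finset.card_eq_sum_card_fiberwise (f := fun x => Nat.log 2 (ht x))
        (t := Finset.range (J + 1)) (fun x hx => by
          rw [Finset.mem_coe] at hx
          rw [Finset.mem_coe, Finset.mem_range, hJ]
          have h1 : Nat.log 2 (ht x) ≤ Nat.log 2 ⌊B⌋₊ :=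
            Nat.log_mono_right (Nat.le_floor (hE x hx).2)
          exact Nat.lt_succ_of_le h1)]
    push_cast
    exact Finset.sum_le_sum fun j _ => hfib j
  refine hcard.trans ?_
  rw [← Finset.mul_sum, geom_sum_eq hr1.ne']
  have hrJ : r ^ J ≤ B ^ θ := by
    calc r ^ J = ((2 : ℝ) ^ J) ^ θ := by
          rw [hr, ← Real.rpow_natCast, ← Real.rpow_natCast, ← Real.rpow_mul (by norm_num),
            ← Real.rpow_mul (by norm_num)]
          congr 1
          ring
      _ ≤ B ^ θ := Real.rpow_le_rpow (by positivity) hJB (by positivity)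
  rw [mul_assoc]
  apply mul_le_mul_of_nonneg_left _ hC10.le
  rw [div_mul_eq_mul_div]
  apply div_le_div_of_nonneg_right _ hr10.le
  calc r ^ (J + 1) - 1 ≤ r * r ^ J := by rw [pow_succ]; linarith
    _ ≤ r * B ^ θ := mul_le_mul_of_nonneg_left hrJ hr0.le

end aux

open Pool.Agent.TH867.QF in
/-- **Theorem.** Let `a_1, …, a_q` be `q ≥ 3` distinct points of the projective line over `ℚ`, `S` a
finite set of primes and `η > 0`. There is `σ₀ > 0` such that for all multiplicities
`m_i ∈ {1, 2, …} ∪ {∞}`, not all `∞`, with `σ = ∑ 1 / m_i ≤ σ₀` and for all `j ≠ k` the C-pair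
`(ℙ¹, ∑ (1 - 1 / m_i) a_i)` has at most `C B ^ ((1 / m_j + 1 / m_k) / 2 + η σ)` `S`-integral points of
height at most `B`. -/
theorem result (q : ℕ) (hq : 3 ≤ q) (a : Fin q → ℤ × ℤ)
    (ha : ∀ i j, i ≠ j → (a i).1 * (a j).2 ≠ (a j).1 * (a i).2) (S : Finset ℕ) (η : ℝ)
    (hη : 0 < η) : ∃ σ₀ : ℝ, 0 < σ₀ ∧ ∀ m : Fin q → ℕ∞, (∀ i, 1 ≤ m i) → (∃ i, m i ≠ ⊤) →
      ∑ i, recip (m i) ≤ σ₀ → ∀ j k : Fin q, j ≠ k → ∃ C : ℝ, 0 < C ∧ ∀ B : ℝ, 1 ≤ B →
        (Points S a m B).Finite ∧ ((Points S a m B).ncard : ℝ) ≤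
          C * B ^ ((recip (m j) + recip (m k)) / 2 + η * ∑ i, recip (m i)) := by
  classical
  obtain ⟨M, hmain⟩ := Pool.Agent.Helper205_Exc.forms_main3 hq (FL a ha) S η hη
  refine ⟨1 / (2 * (M + 1)), by positivity, ?_⟩
  intro m hm hex hσ0 j k hjk
  obtain ⟨σ, hσ⟩ : ∃ σ : ℝ, σ = ∑ i, recip (m i) := ⟨_, rfl⟩
  have hσpos : 0 < σ := by
    obtain ⟨i, hi⟩ := hex
    rw [hσ]
    refine lt_of_lt_of_le ?_
      (Finset.single_le_sum (f := fun i => recip (m i)) (fun i _ => recip_nonneg _) (mem_univ i))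
    obtain ⟨e, he⟩ := ENat.ne_top_iff_exists.mp hi
    have he1 : 1 ≤ e := by
      have := hm i
      rw [← he] at this
      exact_mod_cast this
    have h5 : recip (m i) = (e : ℝ)⁻¹ := by rw [← he]; simp [recip]
    simp only [h5]
    positivity
  rw [← hσ] at hσ0 ⊢
  obtain ⟨A, hA⟩ : ∃ A : ℕ, A = ⌈1 / σ⌉₊ := ⟨_, rfl⟩
  have hAσ : 1 ≤ σ * A := by
    have h1 : 1 / σ ≤ A := by rw [hA]; exact Nat.le_ceil _
    rw [div_le_iff₀ hσpos] at h1
    linarith
  have hσM : σ * M ≤ 1 / 2 := by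
    calc σ * M ≤ 1 / (2 * (M + 1)) * (M + 1) :=
          mul_le_mul hσ0 (by linarith) (Nat.cast_nonneg _) (by positivity)
      _ = 1 / 2 := by field_simp
  obtain ⟨C, hC, hmain⟩ := hmain A
  obtain ⟨u, hu⟩ : ∃ u : ℕ, u = U (FL a ha) := ⟨_, rfl⟩
  have hu1 : 1 ≤ u := by rw [hu]; exact U_pos _
  have hu1' : (1 : ℝ) ≤ u := by exact_mod_cast hu1
  obtain ⟨s, hs⟩ : ∃ s : ℝ, s = recip (m j) + recip (m k) := ⟨_, rfl⟩
  have hs0 : 0 ≤ s := by rw [hs]; exact add_nonneg (recip_nonneg _) (recip_nonneg _)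
  rw [← hs]
  obtain ⟨θ, hθ⟩ : ∃ θ : ℝ, θ = s / 2 + η * σ := ⟨_, rfl⟩
  have hθ0 : 0 < θ := by rw [hθ]; positivity
  rw [← hθ]
  obtain ⟨C', hC', hdy⟩ := dyadic hθ0 (K := C * (2 * (u : ℝ)) ^ θ) (by positivity) (2 * u + A)
  refine ⟨C', hC', ?_⟩
  intro B hB
  have hB0 : 0 < B := by linarith
  have hmem : ∀ x ∈ Points S a m B, Pt (FL a ha) x ∧ 0 < ht x ∧ (ht x : ℝ) ≤ B := by
    rintro x ⟨h1, h2, h3⟩
    have hP : Pt (FL a ha) x := pt_of h1 h2
    exact ⟨hP, ht_pos hP, by rw [ht_eq]; exact h3⟩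
  have hfin : (Points S a m B).Finite := by
    apply (fin_ht ⌊B⌋₊).subset
    intro x hx
    exact Nat.le_floor (hmem x hx).2.2
  refine ⟨hfin, ?_⟩
  rw [Set.ncard_eq_toFinset_card _ hfin]
  refine hdy B hB hfin.toFinset (fun x hx => ?_) (fun n hn => ?_)
  · rw [Set.Finite.mem_toFinset] at hx
    exact (hmem x hx).2
  · obtain ⟨H, hH⟩ : ∃ H : ℝ, H = (u : ℝ) * 2 ^ (n + 1) := ⟨_, rfl⟩
    have hn2 : (2 : ℝ) * u ≤ 2 ^ n := by
      have h1 : n < 2 ^ n := Nat.lt_two_pow_self
      have h2 : 2 * u ≤ 2 ^ n := by omega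
      exact_mod_cast h2
    have h2n : (2 : ℝ) ≤ 2 ^ (n + 1) := by
      calc (2 : ℝ) = 2 ^ 1 := by norm_num
        _ ≤ 2 ^ (n + 1) := pow_le_pow_right₀ (by norm_num) (by omega)
    have hH2 : (2 : ℝ) ^ (n + 1) ≤ H := by
      rw [hH]
      exact le_mul_of_one_le_left (by positivity) hu1'
    have hH1 : 1 ≤ H := by linarith
    have hH0 : 0 < H := by linarith
    have hW2 : 2 ≤ H ^ σ := by
      calc (2 : ℝ) = 2 ^ (1 : ℝ) := by norm_num
        _ ≤ 2 ^ (σ * (n + 1)) := by
            apply Real.rpow_le_rpow_of_exponent_le (by norm_num)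
            have h1 : (A : ℝ) ≤ n := by exact_mod_cast (by omega : A ≤ n)
            nlinarith
        _ = ((2 : ℝ) ^ (n + 1)) ^ σ := by
            rw [← Real.rpow_natCast, ← Real.rpow_mul (by norm_num)]
            congr 1
            push_cast
            ring
        _ ≤ H ^ σ := Real.rpow_le_rpow (by positivity) hH2 hσpos.le
    have h1 := hmain (H ^ σ) (H ^ s) hW2 (Real.one_le_rpow hH1 hs0)
      (hfin.toFinset.filter fun x => Nat.log 2 (ht x) = n) (by
      intro x hx
      obtain ⟨hx1, hx2⟩ := Finset.mem_filter.mp hx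
      rw [Set.Finite.mem_toFinset] at hx1
      obtain ⟨hP, hht, -⟩ := hmem x hx1
      have hlo : (2 : ℝ) ^ n ≤ ht x := by
        have h3 : 2 ^ n ≤ ht x := by
          rw [← hx2]
          exact Nat.pow_log_le_self 2 hht.ne'
        exact_mod_cast h3
      have hup : (ht x : ℝ) ≤ 2 ^ (n + 1) := by
        have h3 : ht x ≤ 2 ^ (n + 1) := by
          rw [← hx2]
          exact (Nat.lt_pow_succ_log_self (by norm_num) _).le
        exact_mod_cast h3
      have hUH : (U (FL a ha) : ℝ) * ht x ≤ H := by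
        rw [hH, ← hu]
        exact mul_le_mul_of_nonneg_left hup (Nat.cast_nonneg _)
      have hrad := rad_le (hα := ha) hm hx1.1 hx1.2.1 hUH
      refine ⟨hP, ?_, ?_, ?_, j, k, hjk, ?_⟩
      · refine le_trans ?_ hlo
        calc (H ^ σ) ^ M = H ^ (σ * M) := by
              rw [← Real.rpow_natCast, ← Real.rpow_mul hH0.le]
          _ ≤ H ^ (1 / 2 : ℝ) := Real.rpow_le_rpow_of_exponent_le hH1 hσM
          _ ≤ ((2 : ℝ) ^ n * 2 ^ n) ^ (1 / 2 : ℝ) := by
              apply Real.rpow_le_rpow hH0.le _ (by norm_num)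
              rw [hH, pow_succ]
              have : (0 : ℝ) < 2 ^ n := by positivity
              nlinarith
          _ = 2 ^ n := by
              rw [← Real.sqrt_eq_rpow, Real.sqrt_mul_self (by positivity)]
      · calc (ht x : ℝ) ≤ H := hup.trans hH2
          _ = H ^ (1 : ℝ) := (Real.rpow_one _).symm
          _ ≤ H ^ (σ * A) := Real.rpow_le_rpow_of_exponent_le hH1 hAσ
          _ = (H ^ σ) ^ A := by rw [← Real.rpow_natCast, ← Real.rpow_mul hH0.le]
      · push_cast
        calc ∏ i, ∏ p ∈ (va (FL a ha) x i).primeFactors \ S, (p : ℝ)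
            ≤ ∏ i, H ^ recip (m i) := by
              apply Finset.prod_le_prod (fun i _ => prod_nonneg fun p _ => Nat.cast_nonneg _)
              intro i _
              have := hrad i
              push_cast at this
              exact this
          _ = H ^ σ := by rw [hσ, Real.rpow_sum_of_pos hH0]
      · rw [hs, Real.rpow_add hH0]
        exact mul_le_mul (hrad j) (hrad k) (Nat.cast_nonneg _) (by positivity))
    refine h1.trans (le_of_eq ?_)
    have h2 : H = (2 * (u : ℝ)) * 2 ^ n := by rw [hH, pow_succ]; ring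
    have h3 : (H ^ σ) ^ η * (H ^ s) ^ ((1 : ℝ) / 2) = H ^ θ := by
      rw [← Real.rpow_mul hH0.le, ← Real.rpow_mul hH0.le, ← Real.rpow_add hH0, hθ]
      congr 1
      ring
    rw [mul_assoc, h3, h2, Real.mul_rpow (by positivity) (by positivity), mul_assoc]
    congr 2
    rw [← Real.rpow_natCast, ← Real.rpow_natCast, ← Real.rpow_mul (by norm_num),
      ← Real.rpow_mul (by norm_num), mul_comm]

end Pool.Agent.Results.MP_464c42_nt.LargeMultiplicities
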